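import Mathlib
import Pool.Agent.Y552.SJ.Mat2
import Pool.Agent.Y239.SJ.Sto2
import Pool.Agent.Y15.SJ.Thk

/-!
# The spectral conjecture for subrings of the reals: all large sizes, small entries, positive and
stochastic matrices

Let `S` be a subring of `ℝ` other than `ℤ`. The nonzero spectrum of a real square matrix is the
multiset of the nonzero roots of its characteristic polynomial over `ℂ`.

* Part 1 (lists). Let `Λ` be a finite list of nonzero complex numbers with the Perron condition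
  (Perron element `r`), the coefficient condition and the trace condition. For every `ε > 0` and all
  sufficiently large `n` the list is the nonzero spectrum of a primitive `n × n` matrix over `S` with
  entries in `[0, ε)`, which is entrywise positive if `tr Λ > 0`. (The starting result gives one
  primitive matrix of some size.) It is the nonzero spectrum of an entrywise positive matrix over `S`
  if and only if `tr Λ > 0`. If `r = 1` then these primitive (positive if `tr Λ > 0`) matrices can be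
  chosen stochastic, so that the nonzero spectra of the mixing Markov chains with transition
  probabilities in `S` are exactly the lists with Perron element `1` which satisfy the conditions
  (the conditions are known to be necessary).
* Part 2 (matrices). The same for a given square matrix `X` over `S` (with arbitrary signs) up to
  strong shift equivalence over `S`. If its Perron eigenvalue is `1`, then `X` is strong shift
  equivalent over `S` to a primitive stochastic matrix (to any matrix with row sums `1`) if and only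
  if it has a fixed vector over `S` whose entries generate the unit ideal of `S`.
-/

set_option autoImplicit false

namespace Pool.Agent.Results.MP_23a7d9_al.StochasticAllSizes

open Matrix Finset Pool.Agent.Y552.SJ

theorem result :
    ∀ S : Subring ℝ, S ≠ ⊥ →
      -- Part 1: lists
      (∀ Λ : Multiset ℂ, (∀ z ∈ Λ, z ≠ 0) →
        ∀ r : ℝ, 0 < r → Λ.count (r : ℂ) = 1 → (∀ z ∈ Λ, z ≠ (r : ℂ) → ‖z‖ < r) →
        (∃ p : Polynomial ℝ, (∀ i, p.coeff i ∈ S) ∧
          p.map (algebraMap ℝ ℂ) = (Λ.map fun z => Polynomial.X - Polynomial.C z).prod) →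
        (∀ k : ℕ, 0 < k → 0 ≤ (Λ.map fun z => z ^ k).sum.re ∧
          (0 < (Λ.map fun z => z ^ k).sum.re →
            ∀ n : ℕ, 0 < n → 0 < (Λ.map fun z => z ^ (n * k)).sum.re)) →
        -- primitive matrices of all large sizes with small entries
        (∀ ε : ℝ, 0 < ε → ∃ n₀ : ℕ, ∀ n : ℕ, n₀ ≤ n → ∃ A : Matrix (Fin n) (Fin n) ℝ,
          (∀ i j, A i j ∈ S) ∧ (∀ i j, 0 ≤ A i j ∧ A i j < ε) ∧
          (∃ m : ℕ, 0 < m ∧ ∀ i j, 0 < (A ^ m) i j) ∧ (0 < Λ.sum.re → ∀ i j, 0 < A i j) ∧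
          (A.map (algebraMap ℝ ℂ)).charpoly.roots.filter (fun z => z ≠ 0) = Λ) ∧
        -- positive matrices
        (0 < Λ.sum.re ↔ ∃ (n : ℕ) (A : Matrix (Fin n) (Fin n) ℝ), (∀ i j, A i j ∈ S) ∧
          (∀ i j, 0 < A i j) ∧
          (A.map (algebraMap ℝ ℂ)).charpoly.roots.filter (fun z => z ≠ 0) = Λ) ∧
        -- stochastic matrices
        (r = 1 → ∀ ε : ℝ, 0 < ε → ∃ n₀ : ℕ, ∀ n : ℕ, n₀ ≤ n →
          ∃ A : Matrix (Fin n) (Fin n) ℝ, (∀ i j, A i j ∈ S) ∧ (∀ i j, 0 ≤ A i j ∧ A i j < ε) ∧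
          (∃ m : ℕ, 0 < m ∧ ∀ i j, 0 < (A ^ m) i j) ∧ (0 < Λ.sum.re → ∀ i j, 0 < A i j) ∧
          (∀ i, ∑ j, A i j = 1) ∧
          (A.map (algebraMap ℝ ℂ)).charpoly.roots.filter (fun z => z ≠ 0) = Λ)) ∧
      -- Part 2: matrices up to strong shift equivalence over `S`
      (∀ (d : ℕ) (X : Matrix (Fin d) (Fin d) ℝ), (∀ i j, X i j ∈ S) →
        ∀ r : ℝ, 0 < r → (X.map (algebraMap ℝ ℂ)).charpoly.roots.count (r : ℂ) = 1 →
        (∀ z ∈ (X.map (algebraMap ℝ ℂ)).charpoly.roots, z ≠ (r : ℂ) → ‖z‖ < r) →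
        (∀ m : ℕ, 0 < m → 0 ≤ (X ^ m).trace ∧
          ∀ k : ℕ, 0 < k → 0 < (X ^ m).trace → 0 < (X ^ (m * k)).trace) →
        (∀ ε : ℝ, 0 < ε → ∃ n₀ : ℕ, ∀ n : ℕ, n₀ ≤ n → ∃ B : Matrix (Fin n) (Fin n) ℝ,
          (∀ i j, B i j ∈ S) ∧ (∀ i j, 0 ≤ B i j ∧ B i j < ε) ∧
          (∃ m : ℕ, 0 < m ∧ ∀ i j, 0 < (B ^ m) i j) ∧ (0 < X.trace → ∀ i j, 0 < B i j) ∧
          Relation.ReflTransGen
            (fun Y Z : (Σ d : ℕ, Matrix (Fin d) (Fin d) ℝ) =>
              ∃ (R : Matrix (Fin Y.1) (Fin Z.1) ℝ) (T : Matrix (Fin Z.1) (Fin Y.1) ℝ),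
                (∀ i j, R i j ∈ S) ∧ (∀ i j, T i j ∈ S) ∧ Y.2 = R * T ∧ Z.2 = T * R)
            ⟨d, X⟩ ⟨n, B⟩) ∧
        (r = 1 →
          ((∃ v w : Fin d → ℝ, (∀ i, v i ∈ S) ∧ (∀ i, w i ∈ S) ∧ X *ᵥ v = v ∧ w ⬝ᵥ v = 1) →
            ∀ ε : ℝ, 0 < ε → ∃ n₀ : ℕ, ∀ n : ℕ, n₀ ≤ n → ∃ B : Matrix (Fin n) (Fin n) ℝ,
              (∀ i j, B i j ∈ S) ∧ (∀ i j, 0 ≤ B i j ∧ B i j < ε) ∧
              (∃ m : ℕ, 0 < m ∧ ∀ i j, 0 < (B ^ m) i j) ∧ (0 < X.trace → ∀ i j, 0 < B i j) ∧
              (∀ i, ∑ j, B i j = 1) ∧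
              Relation.ReflTransGen
                (fun Y Z : (Σ d : ℕ, Matrix (Fin d) (Fin d) ℝ) =>
                  ∃ (R : Matrix (Fin Y.1) (Fin Z.1) ℝ) (T : Matrix (Fin Z.1) (Fin Y.1) ℝ),
                    (∀ i j, R i j ∈ S) ∧ (∀ i j, T i j ∈ S) ∧ Y.2 = R * T ∧ Z.2 = T * R)
                ⟨d, X⟩ ⟨n, B⟩) ∧
          ((∃ (n : ℕ) (B : Matrix (Fin n) (Fin n) ℝ), 0 < n ∧ (∀ i, ∑ j, B i j = 1) ∧
              Relation.ReflTransGen
                (fun Y Z : (Σ d : ℕ, Matrix (Fin d) (Fin d) ℝ) =>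
                  ∃ (R : Matrix (Fin Y.1) (Fin Z.1) ℝ) (T : Matrix (Fin Z.1) (Fin Y.1) ℝ),
                    (∀ i j, R i j ∈ S) ∧ (∀ i j, T i j ∈ S) ∧ Y.2 = R * T ∧ Z.2 = T * R)
                ⟨d, X⟩ ⟨n, B⟩) →
            ∃ v w : Fin d → ℝ, (∀ i, v i ∈ S) ∧ (∀ i, w i ∈ S) ∧ X *ᵥ v = v ∧ w ⬝ᵥ v = 1))) := by
  intro S hS
  refine ⟨?_, ?_⟩
  · intro Λ hΛ0 r hr hcount hPerron hCo htr
    have hne : Λ ≠ 0 := by
      rintro rfl
      simp at hcount
    obtain ⟨d, X, hXS, hroots, hnz, hfix⟩ := listMat S Λ hΛ0 hne hCo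
    have htrace : ∀ m : ℕ, 0 < m → (X ^ m).trace = (Λ.map fun z => z ^ m).sum.re := by
      intro m hm
      have h1 := trace_pow_nzs X m hm
      rw [hnz] at h1
      rw [← h1, Complex.ofReal_re]
    have htrace1 : X.trace = Λ.sum.re := by
      have h1 := trace_nzs X
      rw [hnz] at h1
      rw [← h1, Complex.ofReal_re]
    have hdense : ∀ m : ℕ, 0 < m → 0 ≤ (X ^ m).trace ∧
        ∀ k : ℕ, 0 < k → 0 < (X ^ m).trace → 0 < (X ^ (m * k)).trace := by
      intro m hm
      refine ⟨by rw [htrace m hm]; exact (htr m hm).1, fun k hk h => ?_⟩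
      rw [htrace (m * k) (Nat.mul_pos hm hk), Nat.mul_comm m k]
      rw [htrace m hm] at h
      exact (htr m hm).2 h k hk
    have hmain := matPrim S hS d X hXS r hr (by rw [hroots]; exact hcount) (by rw [hroots]; exact hPerron) hdense
    refine ⟨?_, ⟨?_, ?_⟩, ?_⟩
    · intro ε hε
      obtain ⟨n₀, h⟩ := hmain ε hε
      refine ⟨n₀, fun n hn => ?_⟩
      obtain ⟨B, h1, h2, h3, h4, h5, h6⟩ := h n hn
      refine ⟨B, h1, fun i j => ⟨h2 i j, h3 i j⟩, h4, by rw [← htrace1]; exact h5, ?_⟩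
      have h7 : nzs X = nzs B := nzs_chain' h6
      rw [hnz] at h7
      exact h7.symm
    · intro hpos
      obtain ⟨n₀, h⟩ := hmain 1 one_pos
      obtain ⟨B, h1, h2, h3, h4, h5, h6⟩ := h n₀ le_rfl
      refine ⟨n₀, B, h1, h5 (by rw [htrace1]; exact hpos), ?_⟩
      have h7 : nzs X = nzs B := nzs_chain' h6
      rw [hnz] at h7
      exact h7.symm
    · rintro ⟨n, A, _, hA, hAΛ⟩
      have h1 := trace_nzs A
      have h2 : nzs A = Λ := hAΛ
      rw [h2] at h1
      rw [← h1, Complex.ofReal_re]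
      rcases Nat.eq_zero_or_pos n with h | h
      · exfalso
        subst h
        apply hne
        rw [← h2]
        have h3 : (A.map (algebraMap ℝ ℂ)).charpoly = 1 := by simp [Matrix.charpoly]
        unfold nzs
        rw [h3, Polynomial.roots_one]
        rfl
      · exact Finset.sum_pos (fun i _ => hA i i) ⟨⟨0, h⟩, Finset.mem_univ _⟩
    · intro hr1 ε hε
      subst hr1
      have h1mem : (1 : ℂ) ∈ Λ := by
        have : 0 < Λ.count ((1 : ℝ) : ℂ) := by omega
        simpa using Multiset.count_pos.mp this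
      obtain ⟨n₀, h⟩ := matStoch2 Pool.Agent.Y239.SJ.Sto2.main Pool.Agent.Y15.SJ.Thk.main S hS d X hXS
        (by rw [hroots]; simpa using hcount) (by rw [hroots]; simpa using hPerron) hdense (hfix h1mem) ε hε
      refine ⟨n₀, fun n hn => ?_⟩
      obtain ⟨B, h1, h2, h3, h4, h5, h8, h6⟩ := h n hn
      refine ⟨B, h1, fun i j => ⟨h2 i j, h3 i j⟩, h4, by rw [← htrace1]; exact h5, h8, ?_⟩
      have h7 : nzs X = nzs B := nzs_chain' h6
      rw [hnz] at h7
      exact h7.symm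
  · intro d X hXS r hr hcount hPerron hdense
    refine ⟨?_, ?_⟩
    · intro ε hε
      obtain ⟨n₀, h⟩ := matPrim S hS d X hXS r hr hcount hPerron hdense ε hε
      refine ⟨n₀, fun n hn => ?_⟩
      obtain ⟨B, h1, h2, h3, h4, h5, h6⟩ := h n hn
      exact ⟨B, h1, fun i j => ⟨h2 i j, h3 i j⟩, h4, h5, h6⟩
    · intro hr1
      subst hr1
      refine ⟨?_, ?_⟩
      · intro hfix ε hε
        obtain ⟨n₀, h⟩ := matStoch2 Pool.Agent.Y239.SJ.Sto2.main Pool.Agent.Y15.SJ.Thk.main S hS d X hXS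
          (by simpa using hcount) (by simpa using hPerron) hdense hfix ε hε
        refine ⟨n₀, fun n hn => ?_⟩
        obtain ⟨B, h1, h2, h3, h4, h5, h8, h6⟩ := h n hn
        exact ⟨B, h1, fun i j => ⟨h2 i j, h3 i j⟩, h4, h5, h8, h6⟩
      · rintro ⟨n, B, hn, hrow, hch⟩
        have hch' : Relation.ReflTransGen (ESS S) ⟨d, X⟩ ⟨n, B⟩ := hch
        have hfixB : Fix S ⟨n, B⟩ := by
          refine ⟨fun _ => 1, fun i => if i = (⟨0, hn⟩ : Fin n) then 1 else 0, fun _ => S.one_mem, ?_, ?_, ?_⟩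
          · intro i
            dsimp only
            split_ifs
            exacts [S.one_mem, S.zero_mem]
          · funext i
            change ∑ j, B i j * 1 = 1
            simpa using hrow i
          · change ∑ i : Fin n, (if i = (⟨0, hn⟩ : Fin n) then (1 : ℝ) else 0) * 1 = 1
            simp
        exact fix_chain (chain_symm hch') hfixB

end Pool.Agent.Results.MP_23a7d9_al.StochasticAllSizes
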